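import Pool.Agent.W_c2305b_h79.Basic

/-! MP_c2305b_co: rigidity at two levels with ONE offset for the reflected cells (helper79,
after a remark of helper82). -/

namespace C2305b.Rig

/-- `Rigid3` at two levels with one offset; `η1` does not depend on `κ2`. -/
def Rigid3T (K0 : Set Pl) (t6 : ℝ) : Prop :=
  ∃ R : ℝ, 0 ≤ R ∧ ∀ κ1 : ℝ, 0 < κ1 → ∃ η1 : ℝ, 0 < η1 ∧ ∀ κ2 : ℝ, 0 < κ2 →
   ∃ η2 : ℝ, 0 < η2 ∧ ∃ ν0 : ℝ, 0 < ν0 ∧ ∃ ε0 : ℝ, 0 < ε0 ∧
   ∀ ν : ℝ, 0 < ν → ν ≤ ν0 → ∀ ε : ℝ, 0 ≤ ε → ε ≤ ε0 → ∀ a b : ℝ, a ^ 2 + b ^ 2 = 1 →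
   ∃ co so : ℝ, co ^ 2 + ν * so ^ 2 = 1 ∧ 0 < co ∧ |so| ≤ R ∧
    ∀ (t : Fin 3 → Bool) (c s : Fin 3 → ℝ) (o : Fin 3 → Pl) (q : Fin 3 → Fin 6 → Pl),
      (∀ i, c i ^ 2 + ν * s i ^ 2 = 1) → (∀ i, Conv6 (q i)) →
      (∀ i k, InBody K0 a b (t i) ((1 + ε)⁻¹ • q i k)) →
      (∀ i, Pos ν co so (t i) (c i) (s i) (o i) (q i 0) =
        Pos ν co so (t (i+1)) (c (i+1)) (s (i+1)) (o (i+1)) (q (i+1) 0)) →
      (∀ i, Pos ν co so (t i) (c i) (s i) (o i) (q i 5) =
        Pos ν co so (t (i+1)) (c (i+1)) (s (i+1)) (o (i+1)) (q (i+1) 1)) →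
      ((∀ i, t6 - η1 ≤ ar6 (q i)) → ∀ i j, |c i * s j - s i * c j| ≤ κ1) ∧
      ((∀ i, t6 - η2 ≤ ar6 (q i)) → ∀ i j, |c i * s j - s i * c j| ≤ κ2)

/-- all hypotheses on a triple except the areas -/
structure Trip (K0 : Set Pl) (ν ε a b co so : ℝ) (t : Fin 3 → Bool) (c s : Fin 3 → ℝ)
    (o : Fin 3 → Pl) (q : Fin 3 → Fin 6 → Pl) : Prop where
  unit : ∀ i, c i ^ 2 + ν * s i ^ 2 = 1
  conv : ∀ i, Conv6 (q i)
  body : ∀ i k, InBody K0 a b (t i) ((1 + ε)⁻¹ • q i k)
  sh0 : ∀ i, Pos ν co so (t i) (c i) (s i) (o i) (q i 0) =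
        Pos ν co so (t (i+1)) (c (i+1)) (s (i+1)) (o (i+1)) (q (i+1) 0)
  sh5 : ∀ i, Pos ν co so (t i) (c i) (s i) (o i) (q i 5) =
        Pos ν co so (t (i+1)) (c (i+1)) (s (i+1)) (o (i+1)) (q (i+1) 1)

/-- new frame of a reflected cell when the offset `(co,so)` is replaced by `(co',so')` -/
def nc (ν co so co' so' : ℝ) (t : Bool) (c s : ℝ) : ℝ :=
  if t then c * (co * co' + ν * so * so') - ν * s * (so * co' - co * so') else c

def ns (ν co so co' so' : ℝ) (t : Bool) (c s : ℝ) : ℝ :=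
  if t then s * (co * co' + ν * so * so') + c * (so * co' - co * so') else s

theorem off_unit {ν co so co' so' : ℝ} (h : co ^ 2 + ν * so ^ 2 = 1)
    (h' : co' ^ 2 + ν * so' ^ 2 = 1) :
    (co * co' + ν * so * so') ^ 2 + ν * (so * co' - co * so') ^ 2 = 1 := by
  linear_combination (co' ^ 2 + ν * so' ^ 2) * h + h'

theorem new_unit {ν co so co' so' : ℝ} (h : co ^ 2 + ν * so ^ 2 = 1)
    (h' : co' ^ 2 + ν * so' ^ 2 = 1) (t : Bool) {c s : ℝ} (hc : c ^ 2 + ν * s ^ 2 = 1) :
    nc ν co so co' so' t c s ^ 2 + ν * ns ν co so co' so' t c s ^ 2 = 1 := by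
  cases t
  · simpa [nc, ns] using hc
  · simp only [nc, ns, if_true]
    linear_combination ((co * co' + ν * so * so') ^ 2 + ν * (so * co' - co * so') ^ 2) * hc +
      off_unit h h'

theorem pos_new {ν co so co' so' : ℝ} (h' : co' ^ 2 + ν * so' ^ 2 = 1) (t : Bool) (c s : ℝ)
    (o v : Pl) : Pos ν co' so' t (nc ν co so co' so' t c s) (ns ν co so co' so' t c s) o v =
      Pos ν co so t c s o v := by
  cases t
  · simp [Pos, Off, nc, ns]
  · simp only [Pos, Off, nc, ns, if_true]
    congr 1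
    apply pl_ext
    · simp only [Am_zero, Am_one]
      linear_combination ((c * co - ν * s * so) * v 0 - ν * (s * co + c * so) * v 1) * h'
    · simp only [Am_zero, Am_one]
      linear_combination ((s * co + c * so) * v 0 + (c * co - ν * s * so) * v 1) * h'

theorem Trip.change {K0 : Set Pl} {ν ε a b co so : ℝ} {t : Fin 3 → Bool} {c s : Fin 3 → ℝ}
    {o : Fin 3 → Pl} {q : Fin 3 → Fin 6 → Pl} (T : Trip K0 ν ε a b co so t c s o q)
    (h : co ^ 2 + ν * so ^ 2 = 1) {co' so' : ℝ} (h' : co' ^ 2 + ν * so' ^ 2 = 1) :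
    Trip K0 ν ε a b co' so' t (fun i => nc ν co so co' so' (t i) (c i) (s i))
      (fun i => ns ν co so co' so' (t i) (c i) (s i)) o q where
  unit i := new_unit h h' (t i) (T.unit i)
  conv := T.conv
  body := T.body
  sh0 i := by
    rw [pos_new h', pos_new h']; exact T.sh0 i
  sh5 i := by
    rw [pos_new h', pos_new h']; exact T.sh5 i

theorem abs_le_one_of_unit {ν x y : ℝ} (hν : 0 < ν) (h : x ^ 2 + ν * y ^ 2 = 1) : |x| ≤ 1 := by
  rw [← sq_le_one_iff_abs_le_one]
  have := mul_nonneg hν.le (sq_nonneg y)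
  linarith

theorem rel_unit {ν c s c' s' : ℝ} (h : c ^ 2 + ν * s ^ 2 = 1) (h' : c' ^ 2 + ν * s' ^ 2 = 1) :
    (c * c' + ν * s * s') ^ 2 + ν * (c * s' - s * c') ^ 2 = 1 := by
  linear_combination (c' ^ 2 + ν * s' ^ 2) * h + h'

/-- same type: the mismatch does not depend on the offset -/
theorem mis_same {ν co so co' so' : ℝ} (h : co ^ 2 + ν * so ^ 2 = 1)
    (h' : co' ^ 2 + ν * so' ^ 2 = 1) (t : Bool) (c s d r : ℝ) :
    nc ν co so co' so' t c s * ns ν co so co' so' t d r -
      ns ν co so co' so' t c s * nc ν co so co' so' t d r = c * r - s * d := by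
  cases t
  · simp [nc, ns]
  · simp only [nc, ns, if_true]
    linear_combination (c * r - s * d) * off_unit h h'

/-- the mismatch changes at most by the mismatch of the offsets -/
theorem mis_le {ν co so co' so' : ℝ} (hν : 0 < ν) (h : co ^ 2 + ν * so ^ 2 = 1)
    (h' : co' ^ 2 + ν * so' ^ 2 = 1) (t t' : Bool) {c s d r : ℝ}
    (hc : c ^ 2 + ν * s ^ 2 = 1) (hd : d ^ 2 + ν * r ^ 2 = 1) :
    |nc ν co so co' so' t c s * ns ν co so co' so' t' d r -
      ns ν co so co' so' t c s * nc ν co so co' so' t' d r| ≤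
      |c * r - s * d| + |so * co' - co * so'| := by
  have hx := abs_le_one_of_unit hν (off_unit h h')
  have hg := abs_le_one_of_unit hν (rel_unit hc hd)
  have key : ∀ x y g D : ℝ, |x| ≤ 1 → |g| ≤ 1 → |x * D - y * g| ≤ |D| + |y| := by
    intro x y g D h1 h2
    calc |x * D - y * g| ≤ |x * D| + |y * g| := abs_sub _ _
      _ = |x| * |D| + |y| * |g| := by rw [abs_mul, abs_mul]
      _ ≤ 1 * |D| + |y| * 1 := by gcongr
      _ = |D| + |y| := by ring
  cases t <;> cases t'
  · simp only [nc, ns]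
    have := abs_nonneg (so * co' - co * so')
    simp only [Bool.false_eq_true, if_false]
    linarith
  · simp only [nc, ns, Bool.false_eq_true, if_false, if_true]
    have e : c * (r * (co * co' + ν * so * so') + d * (so * co' - co * so')) -
        s * (d * (co * co' + ν * so * so') - ν * r * (so * co' - co * so')) =
        (co * co' + ν * so * so') * (c * r - s * d) -
          (-(so * co' - co * so')) * (c * d + ν * s * r) := by ring
    rw [e]
    have := key _ (-(so * co' - co * so')) _ (c * r - s * d) hx hg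
    rwa [abs_neg] at this
  · simp only [nc, ns, Bool.false_eq_true, if_false, if_true]
    have e : (c * (co * co' + ν * so * so') - ν * s * (so * co' - co * so')) * r -
        (s * (co * co' + ν * so * so') + c * (so * co' - co * so')) * d =
        (co * co' + ν * so * so') * (c * r - s * d) -
          (so * co' - co * so') * (c * d + ν * s * r) := by ring
    rw [e]
    exact key _ _ _ _ hx hg
  · have := mis_same h h' true c s d r
    rw [this]
    have := abs_nonneg (so * co' - co * so')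
    linarith

/-- a mixed pair bounds the mismatch of the offsets -/
theorem off_le {ν co so co' so' : ℝ} (hν : 0 < ν) (h : co ^ 2 + ν * so ^ 2 = 1)
    (h' : co' ^ 2 + ν * so' ^ 2 = 1) {c s d r : ℝ}
    (hc : c ^ 2 + ν * s ^ 2 = 1) (hd : d ^ 2 + ν * r ^ 2 = 1) :
    |so * co' - co * so'| ≤ |c * r - s * d| +
      |nc ν co so co' so' true c s * ns ν co so co' so' false d r -
      ns ν co so co' so' true c s * nc ν co so co' so' false d r| := by
  have hu := new_unit h h' true hc
  have hg := abs_le_one_of_unit hν (rel_unit hc hd)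
  have hg' := abs_le_one_of_unit hν (rel_unit hu (show d ^ 2 + ν * r ^ 2 = 1 from hd))
  simp only [nc, ns, Bool.false_eq_true, if_false, if_true] at hg' ⊢
  set x := co * co' + ν * so * so' with hx
  set y := so * co' - co * so' with hy
  have e : y = ((c * x - ν * s * y) * d + ν * (s * x + c * y) * r) * (c * r - s * d) -
      ((c * x - ν * s * y) * r - (s * x + c * y) * d) * (c * d + ν * s * r) := by
    linear_combination (-y * (d ^ 2 + ν * r ^ 2)) * hc - y * hd
  calc |y| = |((c * x - ν * s * y) * d + ν * (s * x + c * y) * r) * (c * r - s * d) -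
      ((c * x - ν * s * y) * r - (s * x + c * y) * d) * (c * d + ν * s * r)| := by rw [← e]
    _ ≤ |((c * x - ν * s * y) * d + ν * (s * x + c * y) * r) * (c * r - s * d)| +
      |((c * x - ν * s * y) * r - (s * x + c * y) * d) * (c * d + ν * s * r)| := abs_sub _ _
    _ = |((c * x - ν * s * y) * d + ν * (s * x + c * y) * r)| * |c * r - s * d| +
      |(c * x - ν * s * y) * r - (s * x + c * y) * d| * |c * d + ν * s * r| := by
        rw [abs_mul, abs_mul]
    _ ≤ 1 * |c * r - s * d| + |(c * x - ν * s * y) * r - (s * x + c * y) * d| * 1 := by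
        gcongr
    _ = _ := by ring

/-- one level implies two levels with one offset -/
theorem rigid3T_of_rigid3 {K0 : Set Pl} {t6 : ℝ} (h : Rigid3 K0 t6) : Rigid3T K0 t6 := by
  obtain ⟨R, hR, h⟩ := h
  refine ⟨R, hR, fun κ1 hκ1 => ?_⟩
  obtain ⟨η1, hη1, ν1, hν1, ε1, hε1, H1⟩ := h (κ1 / 3) (by positivity)
  refine ⟨η1, hη1, fun κ2 hκ2 => ?_⟩
  obtain ⟨η2, hη2, ν2, hν2, ε2, hε2, H2⟩ := h (min κ2 (κ1 / 3)) (by positivity)
  refine ⟨min η1 η2, by positivity, min ν1 ν2, by positivity, min ε1 ε2, by positivity, ?_⟩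
  intro ν hν hνle ε hε hεle a b hab
  obtain ⟨co1, so1, u1, p1, r1, H1⟩ := H1 ν hν (le_trans hνle (min_le_left _ _)) ε hε
    (le_trans hεle (min_le_left _ _)) a b hab
  obtain ⟨co2, so2, u2, p2, r2, H2⟩ := H2 ν hν (le_trans hνle (min_le_right _ _)) ε hε
    (le_trans hεle (min_le_right _ _)) a b hab
  by_cases hmix : ∃ (t : Fin 3 → Bool) (c s : Fin 3 → ℝ) (o : Fin 3 → Pl)
      (q : Fin 3 → Fin 6 → Pl), Trip K0 ν ε a b co1 so1 t c s o q ∧
      (∀ i, t6 - min η1 η2 ≤ ar6 (q i)) ∧ ∃ i j, t i = true ∧ t j = false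
  · -- the two offsets are close
    obtain ⟨t, c, s, o, q, T, ha, i, j, hi, hj⟩ := hmix
    have ha1 : ∀ i, t6 - η1 ≤ ar6 (q i) := fun i => by
      have := ha i
      have := min_le_left η1 η2
      linarith
    have ha2 : ∀ i, t6 - η2 ≤ ar6 (q i) := fun i => by
      have := ha i
      have := min_le_right η1 η2
      linarith
    have T2 := T.change u1 u2
    have m1 := H1 t c s o q T.unit T.conv T.body ha1 T.sh0 T.sh5 i j
    have m2 := H2 t _ _ o q T2.unit T2.conv T2.body ha2 T2.sh0 T2.sh5 i j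
    have hoff := off_le hν u1 u2 (T.unit i) (T.unit j)
    rw [hi, hj] at m2
    have hmin := min_le_right κ2 (κ1 / 3)
    have hoff' : |so1 * co2 - co1 * so2| ≤ 2 * (κ1 / 3) := by linarith
    refine ⟨co2, so2, u2, p2, r2, ?_⟩
    intro t c s o q hu hc hb h0 h5
    refine ⟨fun ha i j => ?_, fun ha i j => ?_⟩
    · have T : Trip K0 ν ε a b co2 so2 t c s o q := ⟨hu, hc, hb, h0, h5⟩
      have T1 := T.change u2 u1
      have m1 := H1 t _ _ o q T1.unit T1.conv T1.body ha T1.sh0 T1.sh5 i j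
      have m3 := mis_le hν u1 u2 (t i) (t j) (T1.unit i) (T1.unit j)
      -- going back
      have back : ∀ (t : Bool) (c s : ℝ),
          nc ν co1 so1 co2 so2 t (nc ν co2 so2 co1 so1 t c s) (ns ν co2 so2 co1 so1 t c s) = c ∧
          ns ν co1 so1 co2 so2 t (nc ν co2 so2 co1 so1 t c s) (ns ν co2 so2 co1 so1 t c s) = s := by
        intro t c s
        cases t
        · simp [nc, ns]
        · simp only [nc, ns, if_true]
          have hh := off_unit u1 u2
          constructor
          · linear_combination c * hh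
          · linear_combination s * hh
      rw [(back (t i) (c i) (s i)).1, (back (t i) (c i) (s i)).2,
        (back (t j) (c j) (s j)).1, (back (t j) (c j) (s j)).2] at m3
      linarith
    · have := H2 t c s o q hu hc hb (fun i => by
        have := ha i
        have := min_le_right η1 η2
        linarith) h0 h5 i j
      exact le_trans this (min_le_left _ _)
  · refine ⟨co1, so1, u1, p1, r1, ?_⟩
    intro t c s o q hu hc hb h0 h5
    refine ⟨fun ha i j => ?_, fun ha i j => ?_⟩
    · have := H1 t c s o q hu hc hb ha h0 h5 i j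
      linarith
    · have T : Trip K0 ν ε a b co1 so1 t c s o q := ⟨hu, hc, hb, h0, h5⟩
      have T2 := T.change u1 u2
      have ha2 : ∀ i, t6 - η2 ≤ ar6 (q i) := fun i => by
        have := ha i
        have := min_le_right η1 η2
        linarith
      have m2 := H2 t _ _ o q T2.unit T2.conv T2.body ha2 T2.sh0 T2.sh5 i j
      have hsame : t i = t j := by
        by_contra hne
        apply hmix
        cases hi : t i <;> cases hj : t j
        · exact absurd (hi.trans hj.symm) hne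
        · exact ⟨t, c, s, o, q, T, ha, j, i, hj, hi⟩
        · exact ⟨t, c, s, o, q, T, ha, i, j, hi, hj⟩
        · exact absurd (hi.trans hj.symm) hne
      simp only [hsame] at m2
      rw [mis_same u1 u2] at m2
      exact le_trans m2 (min_le_left _ _)

end C2305b.Rig
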