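import Pool.Agent.W_c2305b_h79.Basic

/-! MP_c2305b_co, R1: compactness, RigidLim implies Rigid3 (helper79, after helper89). -/

namespace C2305b.Rig

open Filter Topology

/-- the local points are bounded -/
theorem coord_bound {K0 : Set Pl} {M : ℝ} (hM : ∀ v ∈ K0, ‖v‖ ≤ M) {a b ε : ℝ} {t : Bool} {v : Pl}
    (hab : a ^ 2 + b ^ 2 = 1) (h0 : 0 ≤ ε) (h1 : ε ≤ 1)
    (h : InBody K0 a b t ((1 + ε)⁻¹ • v)) : |v 0| ≤ 4 * M ∧ |v 1| ≤ 4 * M := by
  have hn := hM _ h
  have hM0 : 0 ≤ M := le_trans (norm_nonneg _) hn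
  set w := Am 1 a (-b) (Jt t ((1 + ε)⁻¹ • v)) with hw
  have w0 : |w 0| ≤ M := le_trans (PiLp.norm_apply_le w 0) hn
  have w1 : |w 1| ≤ M := le_trans (PiLp.norm_apply_le w 1) hn
  have ha : |a| ≤ 1 := by
    rw [← sq_le_one_iff_abs_le_one]; nlinarith [sq_nonneg b]
  have hb : |b| ≤ 1 := by
    rw [← sq_le_one_iff_abs_le_one]; nlinarith [sq_nonneg a]
  have e0 : w 0 = a * ((1 + ε)⁻¹ * v 0) + b * ((1 + ε)⁻¹ * (if t then - v 1 else v 1)) := by
    rw [hw]; cases t <;> simp <;> ring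
  have e1 : w 1 = -b * ((1 + ε)⁻¹ * v 0) + a * ((1 + ε)⁻¹ * (if t then - v 1 else v 1)) := by
    rw [hw]; cases t <;> simp
  have hε : (1 + ε) ≠ 0 := by positivity
  have f0 : v 0 = (1 + ε) * (a * w 0 - b * w 1) := by
    rw [e0, e1]; field_simp; linear_combination (- v 0) * hab
  have f1 : (if t then - v 1 else v 1) = (1 + ε) * (b * w 0 + a * w 1) := by
    rw [e0, e1]; field_simp; linear_combination (-(if t then - v 1 else v 1)) * hab
  have g0 : |a * w 0 - b * w 1| ≤ 2 * M := by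
    calc |a * w 0 - b * w 1| ≤ |a * w 0| + |b * w 1| := abs_sub _ _
      _ = |a| * |w 0| + |b| * |w 1| := by rw [abs_mul, abs_mul]
      _ ≤ 1 * M + 1 * M := by gcongr
      _ = 2 * M := by ring
  have g1 : |b * w 0 + a * w 1| ≤ 2 * M := by
    calc |b * w 0 + a * w 1| ≤ |b * w 0| + |a * w 1| := abs_add_le _ _
      _ = |b| * |w 0| + |a| * |w 1| := by rw [abs_mul, abs_mul]
      _ ≤ 1 * M + 1 * M := by gcongr
      _ = 2 * M := by ring
  have hε2 : |1 + ε| ≤ 2 := by rw [abs_of_nonneg (by positivity)]; linarith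
  constructor
  · rw [f0, abs_mul]
    calc |1 + ε| * |a * w 0 - b * w 1| ≤ 2 * (2 * M) := by gcongr
      _ = 4 * M := by ring
  · have : |v 1| = |if t then - v 1 else v 1| := by cases t <;> simp
    rw [this, f1, abs_mul]
    calc |1 + ε| * |b * w 0 + a * w 1| ≤ 2 * (2 * M) := by gcongr
      _ = 4 * M := by ring

theorem inBody_lim {K0 : Set Pl} (hK : IsCompact K0) {F : Filter ℕ} [F.NeBot] {a b : ℝ} {t : Bool}
    {an bn ε : ℕ → ℝ} {x : ℕ → Pl} {X : Pl} (ha : Tendsto an F (𝓝 a)) (hb : Tendsto bn F (𝓝 b))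
    (hε : Tendsto ε F (𝓝 0)) (hx : Tendsto x F (𝓝 X))
    (h : ∀ᶠ n in F, InBody K0 (an n) (bn n) t ((1 + ε n)⁻¹ • x n)) : InBody K0 a b t X := by
  have hi : Tendsto (fun n => (1 + ε n)⁻¹) F (𝓝 1) := by
    have : Tendsto (fun n => (1 + ε n)⁻¹) F (𝓝 (1 + 0)⁻¹) :=
      (tendsto_const_nhds.add hε).inv₀ (by norm_num)
    simpa using this
  have h0 := tendsto_coord hx 0
  have h1 := tendsto_coord hx 1
  have h1' : Tendsto (fun n => if t then - x n 1 else x n 1) F
      (𝓝 (if t then - X 1 else X 1)) := by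
    cases t
    · simpa using h1
    · simpa using h1.neg
  unfold InBody
  refine hK.isClosed.mem_of_tendsto (tendsto_pl ?_ ?_) h
  · have := (ha.mul (hi.mul h0)).add (hb.mul (hi.mul h1'))
    refine (this.congr fun n => ?_).trans (le_of_eq ?_)
    · cases t <;> simp <;> ring
    · cases t <;> simp <;> ring_nf
  · have := ((hb.neg).mul (hi.mul h0)).add (ha.mul (hi.mul h1'))
    refine (this.congr fun n => ?_).trans (le_of_eq ?_)
    · cases t <;> simp
    · cases t <;> simp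

theorem off_lim {F : Filter ℕ} {ν co so : ℕ → ℝ} {σ : ℝ} (hν : Tendsto ν F (𝓝 0))
    (hco : Tendsto co F (𝓝 1)) (hso : Tendsto so F (𝓝 σ)) (t : Bool) {x : ℕ → Pl} {X : Pl}
    (hx : Tendsto x F (𝓝 X)) :
    Tendsto (fun n => Off (ν n) (co n) (so n) t (x n)) F (𝓝 (Sh (if t then σ else 0) X)) := by
  have h0 := tendsto_coord hx 0
  have h1 := tendsto_coord hx 1
  cases t
  · have e : Sh (if false = true then σ else 0) X = X := by apply pl_ext <;> simp
    rw [e]
    simpa [Off] using hx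
  · refine tendsto_pl ?_ ?_
    · have := (hco.mul h0).sub ((hν.mul hso).mul h1)
      simpa [Off] using this
    · have := (hso.mul h0).add (hco.mul h1)
      simpa [Off] using this

/-- the relative frame equations -/
theorem rel_frame {ν c s c' s' : ℝ} (h' : c' ^ 2 + ν * s' ^ 2 = 1) (h : c ^ 2 + ν * s ^ 2 = 1)
    {W U : Pl} (hW : Am ν c s W = Am ν c' s' U) :
    (c * c' + ν * s * s') * W 0 - ν * (s * c' - c * s') * W 1 = U 0 ∧
    (s * c' - c * s') * W 0 + (c * c' + ν * s * s') * W 1 = U 1 ∧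
    -(s * c' - c * s') * U 0 + (c * c' + ν * s * s') * U 1 = W 1 := by
  have e0 : c * W 0 - ν * s * W 1 = c' * U 0 - ν * s' * U 1 := by
    have := congrArg (fun v : Pl => v 0) hW; simpa using this
  have e1 : s * W 0 + c * W 1 = s' * U 0 + c' * U 1 := by
    have := congrArg (fun v : Pl => v 1) hW; simpa using this
  refine ⟨?_, ?_, ?_⟩
  · linear_combination c' * e0 + ν * s' * e1 + U 0 * h'
  · linear_combination (-s') * e0 + c' * e1 + U 1 * h'
  · linear_combination s * e0 - c * e1 + W 1 * h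

/-- the core of the compactness argument along an ultrafilter -/
theorem rigid_core {K0 : Set Pl} (hK : IsCompact K0) (hsym : ∀ v ∈ K0, -v ∈ K0) {t6 : ℝ}
    (h1 : StrictMax K0 t6) (h2 : LeMax K0 t6) (U : Ultrafilter ℕ) {a b σ : ℝ}
    (hab : a ^ 2 + b ^ 2 = 1)
    (hσ : ∀ (t : Fin 3 → Bool) (e : Fin 3 → ℝ) (q : Fin 3 → Fin 6 → Pl),
      (∀ i, Conv6 (q i)) → (∀ i k, InBody K0 a b (t i) (q i k)) → (∀ i, ar6 (q i) = t6) →
      (∀ i, Sh (e i) (q i 5 - q i 0) = Sh (e (i+1)) (q (i+1) 1 - q (i+1) 0)) →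
      ∀ i j, e i - (if t i then σ else 0) = e j - (if t j then σ else 0))
    {ν ε an bn co so η : ℕ → ℝ} {t : Fin 3 → Bool} {c s : ℕ → Fin 3 → ℝ}
    {o : ℕ → Fin 3 → Pl} {q : ℕ → Fin 3 → Fin 6 → Pl}
    (hν : Tendsto ν U (𝓝 0)) (hνpos : ∀ n, 0 < ν n) (hε : Tendsto ε U (𝓝 0))
    (hε0 : ∀ n, 0 ≤ ε n) (ha : Tendsto an U (𝓝 a)) (hb : Tendsto bn U (𝓝 b))
    (habn : ∀ n, an n ^ 2 + bn n ^ 2 = 1)
    (hco : Tendsto co U (𝓝 1)) (hso : Tendsto so U (𝓝 σ)) (hη : Tendsto η U (𝓝 0))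
    (hcs : ∀ n i, c n i ^ 2 + ν n * s n i ^ 2 = 1)
    (hconv : ∀ n i, Conv6 (q n i))
    (hbody : ∀ᶠ n in (U : Filter ℕ), ∀ i k,
      InBody K0 (an n) (bn n) (t i) ((1 + ε n)⁻¹ • q n i k))
    (har : ∀ n i, t6 - η n ≤ ar6 (q n i))
    (hs0 : ∀ᶠ n in (U : Filter ℕ), ∀ i,
      Pos (ν n) (co n) (so n) (t i) (c n i) (s n i) (o n i) (q n i 0) =
      Pos (ν n) (co n) (so n) (t (i+1)) (c n (i+1)) (s n (i+1)) (o n (i+1)) (q n (i+1) 0))
    (hs5 : ∀ᶠ n in (U : Filter ℕ), ∀ i,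
      Pos (ν n) (co n) (so n) (t i) (c n i) (s n i) (o n i) (q n i 5) =
      Pos (ν n) (co n) (so n) (t (i+1)) (c n (i+1)) (s n (i+1)) (o n (i+1)) (q n (i+1) 1)) :
    ∀ i, Tendsto (fun n => s n i * c n (i+1) - c n i * s n (i+1)) U (𝓝 0) := by
  -- bounded local points and their limits
  obtain ⟨M, hM⟩ := hK.isBounded.exists_norm_le
  have hε1 : ∀ᶠ n in (U : Filter ℕ), ε n ≤ 1 :=
    (hε.eventually (gt_mem_nhds (show (0 : ℝ) < 1 by norm_num))).mono fun n h => h.le
  have hbd : ∀ i k, ∀ᶠ n in (U : Filter ℕ), |q n i k 0| ≤ 4 * M ∧ |q n i k 1| ≤ 4 * M := by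
    intro i k
    filter_upwards [hε1, hbody] with n h3 h4
    exact coord_bound hM (habn n) (hε0 n) h3 (h4 i k)
  have hl0 : ∀ i k, ∃ l, Tendsto (fun n => q n i k 0) (U : Filter ℕ) (𝓝 l) := fun i k =>
    ulim_real U _ (4 * M) ((hbd i k).mono fun n h => h.1)
  have hl1 : ∀ i k, ∃ l, Tendsto (fun n => q n i k 1) (U : Filter ℕ) (𝓝 l) := fun i k =>
    ulim_real U _ (4 * M) ((hbd i k).mono fun n h => h.2)
  choose q0 hq0 using hl0
  choose q1 hq1 using hl1
  obtain ⟨Q, hQ⟩ : ∃ Q : Fin 3 → Fin 6 → Pl, ∀ i k,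
      Tendsto (fun n => q n i k) (U : Filter ℕ) (𝓝 (Q i k)) := by
    refine ⟨fun i k => !₂[q0 i k, q1 i k], fun i k => tendsto_pl ?_ ?_⟩
    · simpa using hq0 i k
    · simpa using hq1 i k
  -- the limit sextuples
  have hQb : ∀ i k, InBody K0 a b (t i) (Q i k) := fun i k =>
    inBody_lim hK ha hb hε (hQ i k) (hbody.mono fun n h => h i k)
  have hQc : ∀ i, Conv6 (Q i) := by
    intro i j k l hjk hkl
    refine ge_of_tendsto (tendsto_cr ((hQ i k).sub (hQ i j)) ((hQ i l).sub (hQ i j))) ?_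
    exact Eventually.of_forall fun n => hconv n i j k l hjk hkl
  have hQa : ∀ i, ar6 (Q i) = t6 := by
    intro i
    refine le_antisymm (ar6_le_of_inBody h2 hab (t i) (hQc i) (hQb i)) ?_
    have e1 : Tendsto (fun n => t6 - η n) (U : Filter ℕ) (𝓝 t6) := by
      simpa using tendsto_const_nhds.sub hη
    exact le_of_tendsto_of_tendsto e1 (tendsto_ar6 (hQ i)) (Eventually.of_forall fun n => har n i)
  have hst : ∀ i, 0 < cr (Q i 1 - Q i 0) (Q i 5 - Q i 0) := fun i =>
    h1 a b (t i) (Q i) hab (hQc i) (hQb i) (hQa i)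
  -- edges at the point 0
  set W : ℕ → Fin 3 → Pl := fun n i => Off (ν n) (co n) (so n) (t i) (q n i 5 - q n i 0) with hWd
  set V : ℕ → Fin 3 → Pl := fun n i => Off (ν n) (co n) (so n) (t i) (q n i 1 - q n i 0) with hVd
  set WL : Fin 3 → Pl := fun i => Sh (if t i then σ else 0) (Q i 5 - Q i 0) with hWL
  set VL : Fin 3 → Pl := fun i => Sh (if t i then σ else 0) (Q i 1 - Q i 0) with hVL
  have hW : ∀ i, Tendsto (fun n => W n i) (U : Filter ℕ) (𝓝 (WL i)) := fun i =>
    off_lim hν hco hso (t i) ((hQ i 5).sub (hQ i 0))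
  have hV : ∀ i, Tendsto (fun n => V n i) (U : Filter ℕ) (𝓝 (VL i)) := fun i =>
    off_lim hν hco hso (t i) ((hQ i 1).sub (hQ i 0))
  have hst' : ∀ i, 0 < cr (VL i) (WL i) := by
    intro i
    have := hst i
    have e : cr (VL i) (WL i) = cr (Q i 1 - Q i 0) (Q i 5 - Q i 0) := by
      simp only [hWL, hVL, cr, Sh_zero, Sh_one]; ring
    rw [e]; exact this
  have hrel : ∀ᶠ n in (U : Filter ℕ), ∀ i,
      Am (ν n) (c n i) (s n i) (W n i) = Am (ν n) (c n (i+1)) (s n (i+1)) (V n (i+1)) := by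
    filter_upwards [hs0, hs5] with n h3 h4 i
    have h3' := h3 i
    have h4' := h4 i
    simp only [Pos] at h3' h4'
    simp only [hWd, hVd, Off_sub, Am_sub]
    have := congrArg₂ (fun x y : Pl => x - y) h4' h3'
    simpa only [add_sub_add_left_eq_sub] using this
  -- relative frames
  set g : ℕ → Fin 3 → ℝ := fun n i => c n i * c n (i+1) + ν n * s n i * s n (i+1) with hgd
  set d : ℕ → Fin 3 → ℝ := fun n i => s n i * c n (i+1) - c n i * s n (i+1) with hdd
  have hgg : ∀ n i, g n i ^ 2 + ν n * d n i ^ 2 = 1 := by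
    intro n i
    simp only [hgd, hdd]
    linear_combination (c n (i+1) ^ 2 + ν n * s n (i+1) ^ 2) * hcs n i + hcs n (i+1)
  have hg1 : ∀ n i, |g n i| ≤ 1 := by
    intro n i
    rw [← sq_le_one_iff_abs_le_one]
    have := mul_nonneg (hνpos n).le (sq_nonneg (d n i))
    linarith [hgg n i]
  have heq : ∀ᶠ n in (U : Filter ℕ), ∀ i,
      g n i * W n i 0 - ν n * d n i * W n i 1 = V n (i+1) 0 ∧
      d n i * W n i 0 + g n i * W n i 1 = V n (i+1) 1 ∧
      -d n i * V n (i+1) 0 + g n i * V n (i+1) 1 = W n i 1 := by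
    filter_upwards [hrel] with n h3 i
    exact rel_frame (hcs n (i+1)) (hcs n i) (h3 i)
  have i3 : ∀ i : Fin 3, i + 2 + 1 = i := by decide
  have i2 : ∀ i : Fin 3, i + 1 + 1 = i + 2 := by decide
  have hcomp : ∀ n i, d n i = -(d n (i+1) * g n (i+2) + g n (i+1) * d n (i+2)) := by
    intro n i
    simp only [hgd, hdd, i2, i3]
    linear_combination (s n (i+1) * c n i - c n (i+1) * s n i) * hcs n (i+2)
  have hcomg : ∀ n i, g n i = g n (i+1) * g n (i+2) - ν n * (d n (i+1) * d n (i+2)) := by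
    intro n i
    simp only [hgd, hdd, i2, i3]
    linear_combination (-(c n (i+1) * c n i + ν n * s n (i+1) * s n i)) * hcs n (i+2)
  -- boundedness of the relative frames
  have case1 : ∀ i, WL i 0 ≠ 0 → ∃ C, ∀ᶠ n in (U : Filter ℕ), |d n i| ≤ C := by
    intro i hi
    exact bdd_of_mul hi (tendsto_coord (hW i) 0) (tendsto_coord (hW i) 1)
      (tendsto_coord (hV (i+1)) 1) (Eventually.of_forall fun n => hg1 n i)
      (heq.mono fun n h => (h i).2.1)
  have case2 : ∀ i, VL (i+1) 0 ≠ 0 → ∃ C, ∀ᶠ n in (U : Filter ℕ), |d n i| ≤ C := by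
    intro i hi
    refine bdd_of_mul (neg_ne_zero.2 hi) (tendsto_coord (hV (i+1)) 0).neg
      (tendsto_coord (hV (i+1)) 1)
      (tendsto_coord (hW i) 1) (Eventually.of_forall fun n => hg1 n i)
      (heq.mono fun n h => ?_)
    have := (h i).2.2
    linarith
  have hdb : ∀ i, ∃ C, ∀ᶠ n in (U : Filter ℕ), |d n i| ≤ C := by
    intro i
    by_cases hi : WL i 0 = 0
    · by_cases hj : VL (i+1) 0 = 0
      · have a1 : VL i 0 ≠ 0 := by
          intro h
          have := hst' i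
          simp [cr, h, hi] at this
        have a2 : WL (i+1) 0 ≠ 0 := by
          intro h
          have := hst' (i+1)
          simp [cr, h, hj] at this
        obtain ⟨C1, hC1⟩ := case1 (i+1) a2
        obtain ⟨C2, hC2⟩ := case2 (i+2) (by rw [i3]; exact a1)
        refine ⟨C1 + C2, ?_⟩
        filter_upwards [hC1, hC2] with n b1 b2
        rw [hcomp n i, abs_neg]
        calc |d n (i+1) * g n (i+2) + g n (i+1) * d n (i+2)|
            ≤ |d n (i+1) * g n (i+2)| + |g n (i+1) * d n (i+2)| := abs_add_le _ _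
          _ = |d n (i+1)| * |g n (i+2)| + |g n (i+1)| * |d n (i+2)| := by rw [abs_mul, abs_mul]
          _ ≤ |d n (i+1)| * 1 + 1 * |d n (i+2)| := by
              gcongr
              · exact hg1 _ _
              · exact hg1 _ _
          _ ≤ C1 + C2 := by linarith
      · exact case2 i hj
    · exact case1 i hi
  have hdl : ∀ i, ∃ l, Tendsto (fun n => d n i) (U : Filter ℕ) (𝓝 l) := fun i => by
    obtain ⟨C, hC⟩ := hdb i
    exact ulim_real U _ C hC
  have hgl : ∀ i, ∃ l, Tendsto (fun n => g n i) (U : Filter ℕ) (𝓝 l) := fun i =>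
    ulim_real U _ 1 (Eventually.of_forall fun n => hg1 n i)
  choose D hD using hdl
  choose G hG using hgl
  have hG2 : ∀ i, G i ^ 2 = 1 := by
    intro i
    have e1 : Tendsto (fun n => g n i ^ 2 + ν n * d n i ^ 2) (U : Filter ℕ)
        (𝓝 (G i ^ 2 + 0 * D i ^ 2)) := ((hG i).pow 2).add (hν.mul ((hD i).pow 2))
    have e2 : Tendsto (fun n => g n i ^ 2 + ν n * d n i ^ 2) (U : Filter ℕ) (𝓝 1) := by
      simp only [hgg]; exact tendsto_const_nhds
    have := tendsto_nhds_unique e1 e2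
    linarith
  have hGc : ∀ i, G i = G (i+1) * G (i+2) := by
    intro i
    have e1 := ((hG (i+1)).mul (hG (i+2))).sub (hν.mul ((hD (i+1)).mul (hD (i+2))))
    have e2 := hG i
    simp only [hcomg _ i] at e2
    have := tendsto_nhds_unique e2 e1
    linarith
  have hDc : ∀ i, D i = -(D (i+1) * G (i+2) + G (i+1) * D (i+2)) := by
    intro i
    have e1 := (((hD (i+1)).mul (hG (i+2))).add ((hG (i+1)).mul (hD (i+2)))).neg
    exact tendsto_nhds_unique_of_eventuallyEq (hD i) e1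
      (Eventually.of_forall fun n => hcomp n i)
  have hE0 : ∀ i, G i * WL i 0 = VL (i+1) 0 := by
    intro i
    have e1 := ((hG i).mul (tendsto_coord (hW i) 0)).sub
      ((hν.mul (hD i)).mul (tendsto_coord (hW i) 1))
    have := tendsto_nhds_unique_of_eventuallyEq e1 (tendsto_coord (hV (i+1)) 0)
      (heq.mono fun n h => (h i).1)
    linarith
  have hE1 : ∀ i, D i * WL i 0 + G i * WL i 1 = VL (i+1) 1 := by
    intro i
    have e1 := ((hD i).mul (tendsto_coord (hW i) 0)).add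
      ((hG i).mul (tendsto_coord (hW i) 1))
    exact tendsto_nhds_unique_of_eventuallyEq e1 (tendsto_coord (hV (i+1)) 1)
      (heq.mono fun n h => (h i).2.1)
  -- normalisation of the signs
  set sg : Fin 3 → ℝ := ![1, G 0, G 0 * G 1] with hsgd
  set ee : Fin 3 → ℝ := ![0, -(G 0 * D 0), -(G 0 * D 0) - G 1 * D 1] with heed
  have g0 := hG2 0
  have g1 := hG2 1
  have g2 := hG2 2
  have c0 : G 0 = G 1 * G 2 := hGc 0
  have d0 : D 0 = -(D 1 * G 2 + G 1 * D 2) := hDc 0
  have hsg2 : ∀ i, sg i ^ 2 = 1 := by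
    intro i
    fin_cases i
    · simp [hsgd]
    · simpa [hsgd] using g0
    · simp only [hsgd]
      show (G 0 * G 1) ^ 2 = 1
      rw [mul_pow, g0, g1, one_mul]
  have hsgs : ∀ i, sg (i+1) = sg i * G i := by
    intro i
    fin_cases i
    · simp [hsgd]
    · simp [hsgd]
    · show (1 : ℝ) = G 0 * G 1 * G 2
      have : G 0 * G 1 * G 2 = G 0 * (G 1 * G 2) := by ring
      rw [this, ← c0, ← sq, g0]
  have hees : ∀ i, ee (i+1) = ee i - G i * D i := by
    intro i
    fin_cases i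
    · simp [heed]
    · simp [heed]
    · show (0 : ℝ) = -(G 0 * D 0) - G 1 * D 1 - G 2 * D 2
      rw [c0, d0]
      linear_combination (- G 1 * D 1) * g2 + (- G 2 * D 2) * g1
  have hfin := hσ t (fun i => ee i + (if t i then σ else 0)) (fun i k => sg i • Q i k)
    (fun i => Conv6_smul (sg i) (hsg2 i) (hQc i))
    (fun i k => InBody_smul hsym (sg i) (hsg2 i) (hQb i k))
    (fun i => by rw [ar6_smul (Q i) (sg i) (hsg2 i)]; exact hQa i)
    (by
      intro i
      have k0 := hE0 i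
      have k1 := hE1 i
      have k2 := hG2 i
      simp only [hWL, hVL, Sh_zero, Sh_one, PiLp.sub_apply] at k0 k1
      apply pl_ext
      · simp only [Sh_zero, PiLp.sub_apply, PiLp.smul_apply, smul_eq_mul, hsgs i]
        linear_combination (sg i * G i) * k0 - sg i * ((Q i 5) 0 - (Q i 0) 0) * k2
      · simp only [Sh_one, PiLp.sub_apply, PiLp.smul_apply, smul_eq_mul, hsgs i, hees i]
        linear_combination (sg i * G i * (ee i - G i * D i)) * k0 + (sg i * G i) * k1 -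
          (sg i * (ee i * ((Q i 5) 0 - (Q i 0) 0) +
            (if t i = true then σ else 0) * ((Q i 5) 0 - (Q i 0) 0) + ((Q i 5) 1 - (Q i 0) 1)) -
            sg i * G i * D i * ((Q i 5) 0 - (Q i 0) 0)) * k2)
  have hee0 : ∀ i, ee i = 0 := by
    intro i
    have := hfin i 0
    simp only [add_sub_cancel_right] at this
    rw [this]
    simp [heed]
  have hD0 : ∀ i, D i = 0 := by
    intro i
    have e1 := hees i
    rw [hee0, hee0] at e1
    have e2 : G i * D i = 0 := by linarith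
    rcases mul_eq_zero.1 e2 with h | h
    · exfalso
      have := hG2 i
      rw [h] at this
      norm_num at this
    · exact h
  intro i
  have := hD i
  rwa [hD0 i] at this

/-- R1: the exact limit statement implies the soft rigidity at a 3-valent vertex -/
theorem rigid3_of_lim (K0 : Set Pl) (hK : IsCompact K0) (hsym : ∀ v ∈ K0, -v ∈ K0) (t6 : ℝ)
    (h1 : StrictMax K0 t6) (h2 : LeMax K0 t6) (h3 : RigidLim K0 t6) : Rigid3 K0 t6 := by
  obtain ⟨R, hR, h3⟩ := h3
  refine ⟨R, hR, fun κ hκ => ?_⟩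
  by_contra hcon
  push Not at hcon
  have hpos : ∀ n : ℕ, (0 : ℝ) < 1 / ((n : ℝ) + 1) := fun n => by positivity
  have H := fun n : ℕ => hcon _ (hpos n) _ (hpos n) _ (hpos n)
  choose ν hν1 hν2 ε hε1 hε2 an bn hab hall using H
  set U : Ultrafilter ℕ := Filter.hyperfilter ℕ with hU
  have hδ : Tendsto (fun n : ℕ => 1 / ((n : ℝ) + 1)) (U : Filter ℕ) (𝓝 0) :=
    (tendsto_one_div_add_atTop_nhds_zero_nat (𝕜 := ℝ)).mono_left Nat.hyperfilter_le_atTop
  have hν : Tendsto ν (U : Filter ℕ) (𝓝 0) :=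
    squeeze_zero (fun n => (hν1 n).le) hν2 hδ
  have hε : Tendsto ε (U : Filter ℕ) (𝓝 0) := squeeze_zero hε1 hε2 hδ
  obtain ⟨a, ha⟩ := ulim_real U an 1 (Eventually.of_forall fun n => by
    rw [← sq_le_one_iff_abs_le_one]; nlinarith [hab n, sq_nonneg (bn n)])
  obtain ⟨b, hb⟩ := ulim_real U bn 1 (Eventually.of_forall fun n => by
    rw [← sq_le_one_iff_abs_le_one]; nlinarith [hab n, sq_nonneg (an n)])
  have habl : a ^ 2 + b ^ 2 = 1 := by
    have e1 := (ha.pow 2).add (hb.pow 2)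
    have e2 : Tendsto (fun n => an n ^ 2 + bn n ^ 2) (U : Filter ℕ) (𝓝 1) := by
      simp only [hab]; exact tendsto_const_nhds
    exact tendsto_nhds_unique e1 e2
  obtain ⟨σ, hσR, hσ⟩ := h3 a b habl
  have hr : ∀ n, 1 ≤ Real.sqrt (1 + ν n * σ ^ 2) := fun n => by
    rw [Real.one_le_sqrt]
    have := mul_nonneg (hν1 n).le (sq_nonneg σ)
    linarith
  have hr2 : ∀ n, Real.sqrt (1 + ν n * σ ^ 2) ^ 2 = 1 + ν n * σ ^ 2 := fun n => by
    apply Real.sq_sqrt
    have := mul_nonneg (hν1 n).le (sq_nonneg σ)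
    linarith
  have hrl : Tendsto (fun n => Real.sqrt (1 + ν n * σ ^ 2)) (U : Filter ℕ) (𝓝 1) := by
    have e1 : Tendsto (fun n => 1 + ν n * σ ^ 2) (U : Filter ℕ) (𝓝 (1 + 0 * σ ^ 2)) :=
      tendsto_const_nhds.add (hν.mul_const _)
    have e2 := (Real.continuous_sqrt.tendsto _).comp e1
    have e3 : Real.sqrt (1 + 0 * σ ^ 2) = 1 := by simp
    rw [e3] at e2
    exact e2
  have hso1 : ∀ n, |σ / Real.sqrt (1 + ν n * σ ^ 2)| ≤ R := fun n => by
    rw [abs_div, abs_of_pos (lt_of_lt_of_le one_pos (hr n))]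
    exact le_trans (div_le_self (abs_nonneg _) (hr n)) hσR
  have hall' := fun n => hall n (1 / Real.sqrt (1 + ν n * σ ^ 2))
    (σ / Real.sqrt (1 + ν n * σ ^ 2))
    (by
      have h0 : Real.sqrt (1 + ν n * σ ^ 2) ≠ 0 := (lt_of_lt_of_le one_pos (hr n)).ne'
      rw [div_pow, div_pow, hr2 n]
      have h1 : 1 + ν n * σ ^ 2 ≠ 0 := by rw [← hr2 n]; positivity
      field_simp)
    (by have := lt_of_lt_of_le one_pos (hr n); positivity) (hso1 n)
  choose t c s o q hcs hconv hbody har hs0 hs5 i j hij using hall'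
  obtain ⟨t0, ht0⟩ := ultra_const U t
  obtain ⟨i0, hi0⟩ := ultra_const U i
  obtain ⟨j0, hj0⟩ := ultra_const U j
  have hco : Tendsto (fun n => 1 / Real.sqrt (1 + ν n * σ ^ 2)) (U : Filter ℕ) (𝓝 1) := by
    have := (tendsto_const_nhds (x := (1 : ℝ)) (f := (U : Filter ℕ))).div hrl one_ne_zero
    rw [div_one] at this
    exact this
  have hso : Tendsto (fun n => σ / Real.sqrt (1 + ν n * σ ^ 2)) (U : Filter ℕ) (𝓝 σ) := by
    have := (tendsto_const_nhds (x := σ) (f := (U : Filter ℕ))).div hrl one_ne_zero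
    rw [div_one] at this
    exact this
  have hcore := rigid_core hK hsym h1 h2 U habl hσ (η := fun n => 1 / ((n : ℝ) + 1)) (t := t0)
    hν hν1 hε hε1 ha hb hab hco hso hδ hcs hconv
    (ht0.mono fun n h => by rw [← h]; exact hbody n) har
    (ht0.mono fun n h => by rw [← h]; exact hs0 n)
    (ht0.mono fun n h => by rw [← h]; exact hs5 n)
  have hlim : Tendsto (fun n => c n i0 * s n j0 - s n i0 * c n j0) (U : Filter ℕ) (𝓝 0) := by
    have key : ∀ i j : Fin 3, i = j ∨ j = i + 1 ∨ i = j + 1 := by decide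
    rcases key i0 j0 with h | h | h
    · rw [h]
      refine tendsto_const_nhds.congr fun n => ?_
      ring
    · have := (hcore i0).neg
      rw [neg_zero] at this
      rw [h]
      refine this.congr fun n => ?_
      ring
    · have := hcore j0
      rw [h]
      refine this.congr fun n => ?_
      ring
  have hev : ∀ᶠ n in (U : Filter ℕ), |c n i0 * s n j0 - s n i0 * c n j0| < κ := by
    have := hlim.abs
    rw [abs_zero] at this
    exact this.eventually (gt_mem_nhds hκ)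
  have hfalse : ∀ᶠ n in (U : Filter ℕ), False := by
    filter_upwards [hev, hi0, hj0] with n e1 e2 e3
    have := hij n
    rw [e2, e3] at this
    linarith
  exact hfalse.exists.elim fun _ h => h

end C2305b.Rig
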