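import Pool.Agent.W_c2305b_h89.Defs

/-! MP_c2305b_co, R1: basic lemmas on frames, sextuples and ultrafilter limits (helper79). -/

namespace C2305b.Rig

open Filter Topology

theorem pl_ext {u v : Pl} (h0 : u 0 = v 0) (h1 : u 1 = v 1) : u = v := by
  ext k
  fin_cases k
  · exact h0
  · exact h1

@[simp] theorem Am_zero (ν c s : ℝ) (v : Pl) : Am ν c s v 0 = c * v 0 - ν * s * v 1 := by
  simp [Am]

@[simp] theorem Am_one (ν c s : ℝ) (v : Pl) : Am ν c s v 1 = s * v 0 + c * v 1 := by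
  simp [Am]

@[simp] theorem Sh_zero (e : ℝ) (v : Pl) : Sh e v 0 = v 0 := by
  simp [Sh]

@[simp] theorem Sh_one (e : ℝ) (v : Pl) : Sh e v 1 = e * v 0 + v 1 := by
  simp [Sh]

@[simp] theorem Jt_zero (t : Bool) (v : Pl) : Jt t v 0 = v 0 := by
  cases t <;> simp [Jt]

@[simp] theorem Jt_one (t : Bool) (v : Pl) : Jt t v 1 = if t then - v 1 else v 1 := by
  cases t <;> simp [Jt]

theorem Off_zero (ν co so : ℝ) (t : Bool) (v : Pl) :
    Off ν co so t v 0 = if t then co * v 0 - ν * so * v 1 else v 0 := by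
  cases t <;> simp [Off]

theorem Off_one (ν co so : ℝ) (t : Bool) (v : Pl) :
    Off ν co so t v 1 = if t then so * v 0 + co * v 1 else v 1 := by
  cases t <;> simp [Off]

theorem cr_Am (a b : ℝ) (hab : a ^ 2 + b ^ 2 = 1) (u v : Pl) :
    cr (Am 1 a (-b) u) (Am 1 a (-b) v) = cr u v := by
  simp only [cr, Am_zero, Am_one]
  linear_combination (u 0 * v 1 - u 1 * v 0) * hab

theorem Am_sub (ν c s : ℝ) (u v : Pl) : Am ν c s (u - v) = Am ν c s u - Am ν c s v := by
  apply pl_ext <;> simp <;> ring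

theorem Off_sub (ν co so : ℝ) (t : Bool) (u v : Pl) :
    Off ν co so t (u - v) = Off ν co so t u - Off ν co so t v := by
  cases t
  · simp [Off]
  · simp only [Off, if_true]
    exact Am_sub _ _ _ _ _

theorem Jt_sub (t : Bool) (u v : Pl) : Jt t (u - v) = Jt t u - Jt t v := by
  cases t
  · simp [Jt]
  · apply pl_ext <;> simp <;> ring

theorem cr_Jt (t : Bool) (u v : Pl) : cr (Jt t u) (Jt t v) = if t then - cr u v else cr u v := by
  cases t
  · simp [Jt]
  · simp only [cr, Jt_zero, Jt_one, if_true]; ring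

/-- the local sextuple pulled back to `K0` (order reversed for reflected bodies) -/
noncomputable def pull (a b : ℝ) (t : Bool) (q : Fin 6 → Pl) (k : Fin 6) : Pl :=
  Am 1 a (-b) (Jt t (q (if t then -k else k)))

theorem pull_conv {a b : ℝ} (hab : a ^ 2 + b ^ 2 = 1) (t : Bool) {q : Fin 6 → Pl} (h : Conv6 q) :
    Conv6 (pull a b t q) := by
  intro i j k hij hjk
  simp only [pull, ← Am_sub, ← Jt_sub]
  rw [cr_Am a b hab, cr_Jt]
  cases t
  · simpa using h i j k hij hjk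
  · simp only [if_true]
    have key : ∀ i j k : Fin 6, i < j → j < k →
        (-k < -j ∧ -j < -i) ∨ (i = 0 ∧ -k < -j ∧ 0 < -k) := by decide
    rcases key i j k hij hjk with ⟨h1, h2⟩ | ⟨h1, h2, h3⟩
    · have := h _ _ _ h1 h2
      simp only [cr, PiLp.sub_apply] at this ⊢
      linarith
    · subst h1
      have := h _ _ _ h3 h2
      simp only [neg_zero, cr, PiLp.sub_apply] at this ⊢
      linarith

theorem pull_ar {a b : ℝ} (hab : a ^ 2 + b ^ 2 = 1) (t : Bool) (q : Fin 6 → Pl) :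
    ar6 (pull a b t q) = ar6 q := by
  unfold ar6
  congr 1
  simp only [pull]
  simp_rw [cr_Am a b hab, cr_Jt]
  cases t
  · simp
  · simp only [if_true]
    have h := Equiv.sum_comp ((Equiv.neg (Fin 6)).trans (Equiv.subRight 1))
      (fun k => cr (q k) (q (k + 1)))
    rw [← h]
    apply Finset.sum_congr rfl
    intro k _
    simp only [Equiv.trans_apply, Equiv.neg_apply, Equiv.subRight_apply, sub_add_cancel, cr]
    have hk : ∀ k : Fin 6, -(k + 1) = -k - 1 := by decide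
    rw [hk]
    ring

theorem ar6_le_of_inBody {K0 : Set Pl} {t6 : ℝ} (h2 : LeMax K0 t6) {a b : ℝ}
    (hab : a ^ 2 + b ^ 2 = 1) (t : Bool) {q : Fin 6 → Pl} (hc : Conv6 q)
    (hb : ∀ k, InBody K0 a b t (q k)) : ar6 q ≤ t6 := by
  rw [← pull_ar hab t q]
  exact h2 _ (pull_conv hab t hc) (fun k => hb _)

theorem Conv6_smul {q : Fin 6 → Pl} (g : ℝ) (hg : g ^ 2 = 1) (h : Conv6 q) :
    Conv6 (fun k => g • q k) := by
  intro i j k hij hjk
  have := h i j k hij hjk
  simp only [cr, PiLp.sub_apply, PiLp.smul_apply, smul_eq_mul] at this ⊢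
  have e : (g * q j 0 - g * q i 0) * (g * q k 1 - g * q i 1) -
      (g * q j 1 - g * q i 1) * (g * q k 0 - g * q i 0) =
      g ^ 2 * ((q j 0 - q i 0) * (q k 1 - q i 1) - (q j 1 - q i 1) * (q k 0 - q i 0)) := by ring
  rw [e, hg, one_mul]
  exact this

theorem ar6_smul (q : Fin 6 → Pl) (g : ℝ) (hg : g ^ 2 = 1) :
    ar6 (fun k => g • q k) = ar6 q := by
  unfold ar6
  congr 1
  apply Finset.sum_congr rfl
  intro k _
  simp only [cr, PiLp.smul_apply, smul_eq_mul]
  linear_combination (q k 0 * q (k + 1) 1 - q k 1 * q (k + 1) 0) * hg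

theorem InBody_smul {K0 : Set Pl} (hsym : ∀ v ∈ K0, -v ∈ K0) {a b : ℝ} {t : Bool} {q : Pl}
    (g : ℝ) (hg : g ^ 2 = 1) (h : InBody K0 a b t q) : InBody K0 a b t (g • q) := by
  have hg' : g = 1 ∨ g = -1 := by
    rcases mul_eq_zero.1 (show (g - 1) * (g + 1) = 0 by linear_combination hg) with h | h
    · left; linarith
    · right; linarith
  rcases hg' with rfl | rfl
  · simpa using h
  · unfold InBody at h ⊢
    have : Am 1 a (-b) (Jt t ((-1 : ℝ) • q)) = - Am 1 a (-b) (Jt t q) := by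
      cases t
      · apply pl_ext <;> simp <;> ring
      · apply pl_ext <;> simp <;> ring
    rw [this]
    exact hsym _ h

/-! ### ultrafilter limits -/

theorem ulim_real (U : Ultrafilter ℕ) (x : ℕ → ℝ) (C : ℝ)
    (h : ∀ᶠ n in (U : Filter ℕ), |x n| ≤ C) : ∃ l, Tendsto x (U : Filter ℕ) (𝓝 l) := by
  have hc : IsCompact (Set.Icc (-C) C) := isCompact_Icc
  obtain ⟨l, -, hl⟩ := hc.ultrafilter_le_nhds (U.map x) (by
    rw [le_principal_iff]
    exact h.mono fun n hn => abs_le.mp hn)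
  exact ⟨l, hl⟩

theorem ultra_const {α : Type*} [Finite α] (U : Ultrafilter ℕ) (f : ℕ → α) :
    ∃ a, ∀ᶠ n in (U : Filter ℕ), f n = a := by
  obtain ⟨a, ha⟩ := Ultrafilter.eq_pure_of_finite (U.map f)
  refine ⟨a, ?_⟩
  have : {a} ∈ U.map f := by rw [ha]; exact Ultrafilter.mem_pure.2 rfl
  exact this

theorem tendsto_pl {F : Filter ℕ} {x : ℕ → Pl} {X : Pl}
    (h0 : Tendsto (fun n => x n 0) F (𝓝 (X 0))) (h1 : Tendsto (fun n => x n 1) F (𝓝 (X 1))) :
    Tendsto x F (𝓝 X) := by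
  have hx : Tendsto (fun n => (WithLp.toLp 2 ![x n 0, x n 1] : Pl)) F
      (𝓝 (WithLp.toLp 2 ![X 0, X 1])) := by
    have hc : Continuous (fun p : ℝ × ℝ => (WithLp.toLp 2 ![p.1, p.2] : Pl)) := by
      fun_prop
    exact (hc.tendsto (X 0, X 1)).comp (h0.prodMk_nhds h1)
  have e1 : (fun n => (WithLp.toLp 2 ![x n 0, x n 1] : Pl)) = x := by
    funext n; apply pl_ext <;> simp
  have e2 : (WithLp.toLp 2 ![X 0, X 1] : Pl) = X := by
    apply pl_ext <;> simp
  rwa [e1, e2] at hx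

theorem tendsto_coord {F : Filter ℕ} {x : ℕ → Pl} {X : Pl} (h : Tendsto x F (𝓝 X)) (k : Fin 2) :
    Tendsto (fun n => x n k) F (𝓝 (X k)) := by
  have hc : Continuous (fun p : Pl => p k) := by fun_prop
  exact (hc.tendsto X).comp h

theorem tendsto_cr {F : Filter ℕ} {x y : ℕ → Pl} {X Y : Pl} (hx : Tendsto x F (𝓝 X))
    (hy : Tendsto y F (𝓝 Y)) : Tendsto (fun n => cr (x n) (y n)) F (𝓝 (cr X Y)) := by
  unfold cr
  exact ((tendsto_coord hx 0).mul (tendsto_coord hy 1)).sub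
    ((tendsto_coord hx 1).mul (tendsto_coord hy 0))

theorem tendsto_ar6 {F : Filter ℕ} {x : ℕ → Fin 6 → Pl} {X : Fin 6 → Pl}
    (hx : ∀ k, Tendsto (fun n => x n k) F (𝓝 (X k))) :
    Tendsto (fun n => ar6 (x n)) F (𝓝 (ar6 X)) := by
  unfold ar6
  exact (tendsto_finsetSum _ fun k _ => tendsto_cr (hx k) (hx (k + 1))).div_const 2

theorem bdd_of_mul {F : Filter ℕ} {d x g y z : ℕ → ℝ} {X Y Z : ℝ} (hX : X ≠ 0)
    (hx : Tendsto x F (𝓝 X)) (hy : Tendsto y F (𝓝 Y)) (hz : Tendsto z F (𝓝 Z))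
    (hg : ∀ᶠ n in F, |g n| ≤ 1) (h : ∀ᶠ n in F, d n * x n + g n * y n = z n) :
    ∃ C, ∀ᶠ n in F, |d n| ≤ C := by
  have hXp : 0 < |X| := abs_pos.2 hX
  refine ⟨(|Z| + |Y| + 2) / (|X| / 2), ?_⟩
  have h1 : ∀ᶠ n in F, |X| / 2 < |x n| :=
    (hx.abs).eventually (lt_mem_nhds (by linarith))
  have h2 : ∀ᶠ n in F, |y n| < |Y| + 1 := (hy.abs).eventually (gt_mem_nhds (by linarith))
  have h3 : ∀ᶠ n in F, |z n| < |Z| + 1 := (hz.abs).eventually (gt_mem_nhds (by linarith))
  filter_upwards [h1, h2, h3, hg, h] with n a1 a2 a3 a4 a5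
  rw [le_div_iff₀ (by linarith)]
  have e : |d n| * |x n| ≤ |z n| + |y n| := by
    rw [← abs_mul]
    have : d n * x n = z n - g n * y n := by linarith
    rw [this]
    calc |z n - g n * y n| ≤ |z n| + |g n * y n| := abs_sub _ _
      _ = |z n| + |g n| * |y n| := by rw [abs_mul]
      _ ≤ |z n| + |y n| := by
        have := mul_le_mul_of_nonneg_right a4 (abs_nonneg (y n))
        linarith
  have := mul_le_mul_of_nonneg_left a1.le (abs_nonneg (d n))
  linarith

end C2305b.Rig
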